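import Mathlib

/-!
# Anosov diffeomorphisms of a manifold modelled on a finite-dimensional space: definitions
-/

open Set Filter Function Bundle
open scoped Manifold ContDiff Topology

namespace Pool.Agent.Lib.MP610fe3.Gen

variable {V : Type*} [NormedAddCommGroup V] [NormedSpace ℝ V]
  {M : Type*} [TopologicalSpace M] [ChartedSpace V M]
  [RiemannianBundle (fun x : M => TangentSpace 𝓘(ℝ, V) x)]

/-- The families of subspaces `Es`, `Eu` form a hyperbolic splitting of the tangent bundle for the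
`C^1` diffeomorphism `f`: they are complementary, invariant under the derivative, `Es` is
contracted exponentially by the derivatives of the forward iterates and `Eu` by those of the
backward iterates.  (Continuity of the splitting follows from this and is not required.) -/
structure IsAnosovSplitting (f : M ≃ₘ^1⟮𝓘(ℝ, V), 𝓘(ℝ, V)⟯ M)
    (Es Eu : ∀ x : M, Submodule ℝ (TangentSpace 𝓘(ℝ, V) x)) : Prop where
  isCompl : ∀ x, IsCompl (Es x) (Eu x)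
  map_s : ∀ x, (Es x).map (mfderiv 𝓘(ℝ, V) 𝓘(ℝ, V) f x).toLinearMap = Es (f x)
  map_u : ∀ x, (Eu x).map (mfderiv 𝓘(ℝ, V) 𝓘(ℝ, V) f x).toLinearMap = Eu (f x)
  estimate : ∃ C l : ℝ, 0 < C ∧ 0 < l ∧ l < 1 ∧ ∀ (k : ℕ) (x : M),
    (∀ v ∈ Es x, ‖mfderiv 𝓘(ℝ, V) 𝓘(ℝ, V) ((⇑f)^[k]) x v‖ ≤ C * l ^ k * ‖v‖) ∧
    (∀ v ∈ Eu x, ‖mfderiv 𝓘(ℝ, V) 𝓘(ℝ, V) ((⇑f.symm)^[k]) x v‖ ≤ C * l ^ k * ‖v‖)

/-- `f` is an Anosov diffeomorphism. -/
def IsAnosov (f : M ≃ₘ^1⟮𝓘(ℝ, V), 𝓘(ℝ, V)⟯ M) : Prop :=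
  ∃ Es Eu : ∀ x : M, Submodule ℝ (TangentSpace 𝓘(ℝ, V) x), IsAnosovSplitting f Es Eu

end Pool.Agent.Lib.MP610fe3.Gen
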