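import Pool.Agent.Lib.MP_610fe3_an.Gen.Chart

/-!
# Uniform first order approximation (helper33)
-/

open Set Filter Function Bundle
open scoped Manifold ContDiff Topology

namespace Pool.Agent.Lib.MP610fe3.Gen

lemma unif_of_local {M : Type*} [MetricSpace M] [CompactSpace M] {Pr : M × M → Prop}
    (h : ∀ x0 : M, ∀ᶠ p in 𝓝 (x0, x0), Pr p) :
    ∃ r : ℝ, 0 < r ∧ ∀ x z : M, dist z x < r → Pr (z, x) := by
  have h1 : ∀ᶠ p in 𝓝ˢ (diagonal M), Pr p := by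
    rw [eventually_nhdsSet_iff_forall]
    rintro ⟨a, b⟩ hab
    rw [mem_diagonal_iff] at hab
    simp only at hab
    subst hab
    exact h a
  rw [nhdsSet_diagonal_eq_uniformity] at h1
  obtain ⟨r, hr, hr'⟩ := Metric.mem_uniformity_dist.1 h1
  exact ⟨r, hr, fun x z hxz => hr' hxz⟩

variable {N N' : ℕ} {V : Type*} [NormedAddCommGroup V] [NormedSpace ℝ V] [FiniteDimensional ℝ V]
  {M : Type*} [MetricSpace M]
  [ChartedSpace V M] [IsManifold 𝓘(ℝ, V) ∞ M]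

lemma loc_apply {F : M → EE N} (x0 x : M) (hx : x ∈ (extChartAt 𝓘(ℝ, V) x0).source) :
    (loc (V := V) F x0) (extChartAt 𝓘(ℝ, V) x0 x) = F x := by
  unfold loc
  rw [Function.comp_apply, (extChartAt 𝓘(ℝ, V) x0).left_inv hx]

lemma tendsto_chart_prod (x0 : M) :
    Tendsto (fun p : M × M => (extChartAt 𝓘(ℝ, V) x0 p.1, extChartAt 𝓘(ℝ, V) x0 p.2)) (𝓝 (x0, x0))
      (𝓝 (extChartAt 𝓘(ℝ, V) x0 x0, extChartAt 𝓘(ℝ, V) x0 x0)) := by
  have h2 : ContinuousAt (extChartAt 𝓘(ℝ, V) x0) x0 := continuousAt_extChartAt x0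
  have h3 : Tendsto (fun p : M × M => extChartAt 𝓘(ℝ, V) x0 p.1) (𝓝 (x0, x0))
      (𝓝 (extChartAt 𝓘(ℝ, V) x0 x0)) := h2.tendsto.comp (continuous_fst.tendsto (x0, x0))
  have h4 : Tendsto (fun p : M × M => extChartAt 𝓘(ℝ, V) x0 p.2) (𝓝 (x0, x0))
      (𝓝 (extChartAt 𝓘(ℝ, V) x0 x0)) := h2.tendsto.comp (continuous_snd.tendsto (x0, x0))
  exact h3.prodMk_nhds h4

lemma strict_loc {F : M → EE N} (hF : ContMDiff 𝓘(ℝ, V) (𝓡 N) 1 F) (x0 : M) {ε : ℝ} (hε : 0 < ε) :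
    ∀ᶠ p : V × V in 𝓝 (extChartAt 𝓘(ℝ, V) x0 x0, extChartAt 𝓘(ℝ, V) x0 x0),
      ‖loc F x0 p.1 - loc F x0 p.2
        - fderiv ℝ (loc F x0) (extChartAt 𝓘(ℝ, V) x0 x0) (p.1 - p.2)‖ ≤ ε * ‖p.1 - p.2‖ := by
  have h0 : x0 ∈ (extChartAt 𝓘(ℝ, V) x0).source := mem_extChartAt_source x0
  have h1 := (contDiffAt_loc hF x0 x0 h0).hasStrictFDerivAt (by norm_num)
  exact h1.isLittleO.def hε

/-- the pair estimate near the diagonal point `x0` -/
lemma local_approx {e : M → EE N} {F : M → EE N'} (he : ContMDiff 𝓘(ℝ, V) (𝓡 N) 1 e)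
    (hF : ContMDiff 𝓘(ℝ, V) (𝓡 N') 1 F) (hiso : Isometry e) (hinj : ∀ x, Injective (dF V e x))
    {η : ℝ} (hη : 0 < η) (x0 : M) :
    ∀ᶠ p : M × M in 𝓝 (x0, x0),
      ‖F p.1 - F p.2 - KF V e F p.2 (e p.1 - e p.2)‖ ≤ η * dist p.1 p.2 := by
  have h0 : x0 ∈ (extChartAt 𝓘(ℝ, V) x0).source := mem_extChartAt_source x0
  set A0 := fderiv ℝ (loc e x0) (extChartAt 𝓘(ℝ, V) x0 x0) with hA0
  set B0 := fderiv ℝ (loc F x0) (extChartAt 𝓘(ℝ, V) x0 x0) with hB0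
  have hA0inj : Injective A0 := fderiv_loc_inj he hinj x0 x0 h0
  set L := pinv A0 with hL
  have hLA : ∀ v, L (A0 v) = v := pinv_apply A0 hA0inj
  have hKA : ∀ v, KF V e F x0 (A0 v) = B0 v := by
    intro v
    rw [KF_eq he hF hinj x0 x0 h0, ContinuousLinearMap.comp_apply, ← hA0, ← hB0, ← hL, hLA]
  -- constants
  set c := ‖L‖ with hc
  have hc0 : 0 ≤ c := norm_nonneg _
  set k := ‖KF V e F x0‖ with hk
  have hk0 : 0 ≤ k := norm_nonneg _
  obtain ⟨ε, hε, hε1, hε2⟩ : ∃ ε : ℝ, 0 < ε ∧ ε * c ≤ 1 / 2 ∧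
      ε * ((1 + k) * (2 * c) + 1) ≤ η := by
    have h1 : 0 < (1 + k) * (2 * c) + 1 := by positivity
    refine ⟨min (1 / (2 * (c + 1))) (η / ((1 + k) * (2 * c) + 1)), by positivity, ?_, ?_⟩
    · have h2 : min (1 / (2 * (c + 1))) (η / ((1 + k) * (2 * c) + 1)) * c
          ≤ 1 / (2 * (c + 1)) * c := mul_le_mul_of_nonneg_right (min_le_left _ _) hc0
      have h3 : 1 / (2 * (c + 1)) * c ≤ 1 / 2 := by
        rw [div_mul_eq_mul_div, div_le_div_iff₀ (by positivity) (by norm_num)]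
        linarith
      linarith
    · calc min (1 / (2 * (c + 1))) (η / ((1 + k) * (2 * c) + 1)) * ((1 + k) * (2 * c) + 1)
          ≤ η / ((1 + k) * (2 * c) + 1) * ((1 + k) * (2 * c) + 1) :=
            mul_le_mul_of_nonneg_right (min_le_right _ _) h1.le
        _ = η := by field_simp
  have e1 := (tendsto_chart_prod (V := V) x0).eventually (strict_loc he x0 hε)
  have e2 := (tendsto_chart_prod (V := V) x0).eventually (strict_loc hF x0 hε)
  have e3 : ∀ᶠ p : M × M in 𝓝 (x0, x0), p.1 ∈ (extChartAt 𝓘(ℝ, V) x0).source :=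
    (continuous_fst.tendsto (x0, x0)).eventually (extChartAt_source_mem_nhds (I := 𝓘(ℝ, V)) x0)
  have e4 : ∀ᶠ p : M × M in 𝓝 (x0, x0), p.2 ∈ (extChartAt 𝓘(ℝ, V) x0).source :=
    (continuous_snd.tendsto (x0, x0)).eventually (extChartAt_source_mem_nhds (I := 𝓘(ℝ, V)) x0)
  have e5 : ∀ᶠ p : M × M in 𝓝 (x0, x0), ‖KF V e F p.2 - KF V e F x0‖ < ε := by
    have h1 : Tendsto (fun p : M × M => KF V e F p.2) (𝓝 (x0, x0)) (𝓝 (KF V e F x0)) :=
      ((continuous_KF he hF hinj).tendsto x0).comp (continuous_snd.tendsto (x0, x0))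
    have h2 := (Metric.tendsto_nhds.1 h1) ε hε
    filter_upwards [h2] with p hp
    rwa [dist_eq_norm] at hp
  filter_upwards [e1, e2, e3, e4, e5] with p h1 h2 h3 h4 h5
  rw [loc_apply x0 _ h3, loc_apply x0 _ h4] at h1 h2
  set a := extChartAt 𝓘(ℝ, V) x0 p.2
  set b := extChartAt 𝓘(ℝ, V) x0 p.1
  have hd : ‖e p.1 - e p.2‖ = dist p.1 p.2 := by rw [← dist_eq_norm, hiso.dist_eq]
  set d := dist p.1 p.2 with hdd
  -- the distance in the chart
  have hba : ‖b - a‖ ≤ 2 * c * d := by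
    have h6 : b - a = L (e p.1 - e p.2) - L (e p.1 - e p.2 - A0 (b - a)) := by
      rw [← map_sub]
      have : e p.1 - e p.2 - (e p.1 - e p.2 - A0 (b - a)) = A0 (b - a) := by abel
      rw [this, hLA]
    have h7 : ‖b - a‖ ≤ c * d + c * (ε * ‖b - a‖) := by
      calc ‖b - a‖ = ‖L (e p.1 - e p.2) - L (e p.1 - e p.2 - A0 (b - a))‖ := congrArg _ h6
        _ ≤ ‖L (e p.1 - e p.2)‖ + ‖L (e p.1 - e p.2 - A0 (b - a))‖ := norm_sub_le _ _
        _ ≤ c * ‖e p.1 - e p.2‖ + c * ‖e p.1 - e p.2 - A0 (b - a)‖ :=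
          add_le_add (L.le_opNorm _) (L.le_opNorm _)
        _ ≤ c * d + c * (ε * ‖b - a‖) := by
          rw [hd]
          have := mul_le_mul_of_nonneg_left h1 hc0
          linarith
    have h8 : c * (ε * ‖b - a‖) ≤ 1 / 2 * ‖b - a‖ := by
      have := mul_le_mul_of_nonneg_right hε1 (norm_nonneg (b - a))
      nlinarith
    linarith
  have h9 : F p.1 - F p.2 - KF V e F p.2 (e p.1 - e p.2)
      = (F p.1 - F p.2 - B0 (b - a)) - KF V e F x0 (e p.1 - e p.2 - A0 (b - a))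
        - (KF V e F p.2 - KF V e F x0) (e p.1 - e p.2) := by
    rw [map_sub (KF V e F x0) (e p.1 - e p.2), hKA, ContinuousLinearMap.sub_apply]
    abel
  rw [h9]
  have hd0 : 0 ≤ d := dist_nonneg
  calc ‖(F p.1 - F p.2 - B0 (b - a)) - KF V e F x0 (e p.1 - e p.2 - A0 (b - a))
        - (KF V e F p.2 - KF V e F x0) (e p.1 - e p.2)‖
      ≤ ‖F p.1 - F p.2 - B0 (b - a)‖ + ‖KF V e F x0 (e p.1 - e p.2 - A0 (b - a))‖
        + ‖(KF V e F p.2 - KF V e F x0) (e p.1 - e p.2)‖ :=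
        (norm_sub_le _ _).trans (add_le_add_left (norm_sub_le _ _) _)
    _ ≤ ε * ‖b - a‖ + k * (ε * ‖b - a‖) + ε * d := by
        have i1 := (KF V e F x0).le_opNorm (e p.1 - e p.2 - A0 (b - a))
        have i2 := (KF V e F p.2 - KF V e F x0).le_opNorm (e p.1 - e p.2)
        have i3 := mul_le_mul_of_nonneg_left h1 hk0
        have i4 : ‖KF V e F p.2 - KF V e F x0‖ * ‖e p.1 - e p.2‖ ≤ ε * d := by
          rw [hd]
          exact mul_le_mul_of_nonneg_right h5.le hd0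
        linarith
    _ ≤ η * d := by
        have i5 : ε * ((1 + k) * (2 * c) + 1) * d ≤ η * d := mul_le_mul_of_nonneg_right hε2 hd0
        have i6 : (ε * (1 + k)) * ‖b - a‖ ≤ (ε * (1 + k)) * (2 * c * d) :=
          mul_le_mul_of_nonneg_left hba (by positivity)
        nlinarith

variable [CompactSpace M]

lemma unif_approx {e : M → EE N} {F : M → EE N'} (he : ContMDiff 𝓘(ℝ, V) (𝓡 N) 1 e)
    (hF : ContMDiff 𝓘(ℝ, V) (𝓡 N') 1 F) (hiso : Isometry e) (hinj : ∀ x, Injective (dF V e x))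
    {η : ℝ} (hη : 0 < η) :
    ∃ r : ℝ, 0 < r ∧ ∀ x z : M, dist z x < r →
      ‖F z - F x - KF V e F x (e z - e x)‖ ≤ η * dist z x := by
  obtain ⟨r, hr, h⟩ := unif_of_local (Pr := fun p : M × M =>
    ‖F p.1 - F p.2 - KF V e F p.2 (e p.1 - e p.2)‖ ≤ η * dist p.1 p.2)
    (fun x0 => local_approx he hF hiso hinj hη x0)
  exact ⟨r, hr, fun x z hxz => h x z hxz⟩

omit [CompactSpace M] in
lemma local_exists {e : M → EE N} (he : ContMDiff 𝓘(ℝ, V) (𝓡 N) 1 e)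
    (hinj : ∀ x, Injective (dF V e x)) {η : ℝ} (hη : 0 < η) (x0 : M) :
    ∀ᶠ p : EE N × M in 𝓝 (0, x0), ∃ z : M, ‖e z - e p.2 - KF V e e p.2 p.1‖ ≤ η * ‖p.1‖ := by
  have h0 : x0 ∈ (extChartAt 𝓘(ℝ, V) x0).source := mem_extChartAt_source x0
  set A0 := fderiv ℝ (loc e x0) (extChartAt 𝓘(ℝ, V) x0 x0) with hA0
  have hA0inj : Injective A0 := fderiv_loc_inj he hinj x0 x0 h0
  set L := pinv A0 with hL
  have hP : ∀ w, KF V e e x0 w = A0 (L w) := by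
    intro w
    rw [KF_eq he he hinj x0 x0 h0, ContinuousLinearMap.comp_apply, ← hA0, ← hL]
  set c := ‖L‖ with hc
  have hc0 : 0 ≤ c := norm_nonneg _
  set ε := η / (c + 1) with hε'
  have hε : 0 < ε := by positivity
  -- the point in the chart
  have t1 : Tendsto (fun p : EE N × M => extChartAt 𝓘(ℝ, V) x0 p.2) (𝓝 (0, x0))
      (𝓝 (extChartAt 𝓘(ℝ, V) x0 x0)) :=
    (continuousAt_extChartAt (I := 𝓘(ℝ, V)) x0).tendsto.comp (continuous_snd.tendsto ((0 : EE N), x0))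
  have t2 : Tendsto (fun p : EE N × M => extChartAt 𝓘(ℝ, V) x0 p.2 + L p.1) (𝓝 (0, x0))
      (𝓝 (extChartAt 𝓘(ℝ, V) x0 x0)) := by
    have t3 : Tendsto (fun p : EE N × M => L p.1) (𝓝 (0, x0)) (𝓝 0) := by
      have : Tendsto (fun p : EE N × M => L p.1) (𝓝 ((0 : EE N), x0)) (𝓝 (L 0)) :=
        (L.continuous.tendsto 0).comp (continuous_fst.tendsto ((0 : EE N), x0))
      rwa [map_zero] at this
    simpa using t1.add t3
  have e1 := (t2.prodMk_nhds t1).eventually (strict_loc he x0 hε)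
  have e2 : ∀ᶠ p : EE N × M in 𝓝 (0, x0), p.2 ∈ (extChartAt 𝓘(ℝ, V) x0).source :=
    (continuous_snd.tendsto ((0 : EE N), x0)).eventually (extChartAt_source_mem_nhds (I := 𝓘(ℝ, V)) x0)
  have e3 : ∀ᶠ p : EE N × M in 𝓝 (0, x0), ‖KF V e e p.2 - KF V e e x0‖ < ε := by
    have h1 : Tendsto (fun p : EE N × M => KF V e e p.2) (𝓝 (0, x0)) (𝓝 (KF V e e x0)) :=
      ((continuous_KF he he hinj).tendsto x0).comp (continuous_snd.tendsto ((0 : EE N), x0))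
    have h2 := (Metric.tendsto_nhds.1 h1) ε hε
    filter_upwards [h2] with p hp
    rwa [dist_eq_norm] at hp
  filter_upwards [e1, e2, e3] with p h1 h2 h3
  refine ⟨(extChartAt 𝓘(ℝ, V) x0).symm (extChartAt 𝓘(ℝ, V) x0 p.2 + L p.1), ?_⟩

  rw [loc_apply x0 _ h2, add_sub_cancel_left, ← hA0] at h1
  have h4 : loc (V := V) e x0 (extChartAt 𝓘(ℝ, V) x0 p.2 + L p.1)
      = e ((extChartAt 𝓘(ℝ, V) x0).symm (extChartAt 𝓘(ℝ, V) x0 p.2 + L p.1)) := rfl
  rw [h4] at h1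
  set z := (extChartAt 𝓘(ℝ, V) x0).symm (extChartAt 𝓘(ℝ, V) x0 p.2 + L p.1)
  have h5 : e z - e p.2 - KF V e e p.2 p.1
      = (e z - e p.2 - A0 (L p.1)) - (KF V e e p.2 - KF V e e x0) p.1 := by
    rw [ContinuousLinearMap.sub_apply, hP]
    abel
  rw [h5]
  calc ‖(e z - e p.2 - A0 (L p.1)) - (KF V e e p.2 - KF V e e x0) p.1‖
      ≤ ‖e z - e p.2 - A0 (L p.1)‖ + ‖(KF V e e p.2 - KF V e e x0) p.1‖ := norm_sub_le _ _
    _ ≤ ε * (c * ‖p.1‖) + ε * ‖p.1‖ := by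
        have i1 : ε * ‖L p.1‖ ≤ ε * (c * ‖p.1‖) :=
          mul_le_mul_of_nonneg_left (L.le_opNorm _) hε.le
        have i2 := (KF V e e p.2 - KF V e e x0).le_opNorm p.1
        have i3 := mul_le_mul_of_nonneg_right h3.le (norm_nonneg p.1)
        linarith
    _ = η * ‖p.1‖ := by
        rw [hε']
        field_simp

lemma unif_exists {e : M → EE N} (he : ContMDiff 𝓘(ℝ, V) (𝓡 N) 1 e)
    (hinj : ∀ x, Injective (dF V e x)) {η : ℝ} (hη : 0 < η) :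
    ∃ r : ℝ, 0 < r ∧ ∀ (x : M) (w : EE N), ‖w‖ < r →
      ∃ z : M, ‖e z - e x - KF V e e x w‖ ≤ η * ‖w‖ := by
  have h1 : ∀ᶠ w : EE N in 𝓝 0, ∀ x ∈ (univ : Set M), ∃ z : M,
      ‖e z - e x - KF V e e x w‖ ≤ η * ‖w‖ := by
    apply isCompact_univ.eventually_forall_of_forall_eventually
    intro x _
    exact local_exists he hinj hη x
  obtain ⟨r, hr, h⟩ := Metric.eventually_nhds_iff.1 h1
  exact ⟨r, hr, fun x w hw => h (by simpa using hw) x (mem_univ x)⟩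

end Pool.Agent.Lib.MP610fe3.Gen
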