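import Pool.Agent.Lib.MP_610fe3_an.Defs
import Pool.Agent.Lib.MP_610fe3_an.Gen.Unif

/-!
# Embedding data and derivatives of maps, from an embedding of the manifold
-/

open Set Filter Function Bundle
open scoped Manifold ContDiff Topology

namespace Pool.Agent.Lib.MP610fe3.Gen

open MP610fe3

variable {V : Type*} [NormedAddCommGroup V] [NormedSpace ℝ V] [FiniteDimensional ℝ V]

/-- the embedding data -/
theorem exists_emb {N : ℕ} {M : Type*} [MetricSpace M] [CompactSpace M]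
    [ChartedSpace V M] [IsManifold 𝓘(ℝ, V) ∞ M]
    (e : M → EuclideanSpace ℝ (Fin N)) (hiso : Isometry e) (hsm : ContMDiff 𝓘(ℝ, V) (𝓡 N) ∞ e)
    (hinj : ∀ x, Injective (mfderiv 𝓘(ℝ, V) (𝓡 N) e x)) :
    ∃ E : Emb M (EuclideanSpace ℝ (Fin N)), E.e = e ∧ (∀ x, E.P x = KF V e e x) ∧
      (∀ x, (E.P x).range = (mfderiv 𝓘(ℝ, V) (𝓡 N) e x).range) := by
  have he : ContMDiff 𝓘(ℝ, V) (𝓡 N) 1 e := hsm.of_le (by exact_mod_cast le_top)
  have hinj' : ∀ x, Injective (dF V e x) := hinj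
  refine ⟨⟨e, hiso, KF V e e, continuous_KF he he hinj', fun x => KF_comp_KF hinj' x, ?_, ?_⟩,
    rfl, fun x => rfl, fun x => range_KF e hinj' x⟩
  · intro η hη
    exact unif_approx he he hiso hinj' hη
  · intro η hη
    exact unif_exists he hinj' hη

/-- the projection fixes its range -/
lemma P_fix {M W : Type*} [MetricSpace M] [NormedAddCommGroup W] [NormedSpace ℝ W] (E : Emb M W)
    (x : M) (w : W) (hw : w ∈ (E.P x).range) : E.P x w = w := by
  obtain ⟨v, rfl⟩ := hw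
  have := congrArg (fun L : W →L[ℝ] W => L v) (E.idem x)
  simpa using this

theorem exists_hasD {N : ℕ} {M : Type*} [MetricSpace M] [CompactSpace M]
    [ChartedSpace V M] [IsManifold 𝓘(ℝ, V) ∞ M]
    (E : Emb M (EuclideanSpace ℝ (Fin N))) (hsm : ContMDiff 𝓘(ℝ, V) (𝓡 N) ∞ E.e)
    (hinj : ∀ x, Injective (mfderiv 𝓘(ℝ, V) (𝓡 N) E.e x))
    (hrange : ∀ x, (E.P x).range = (mfderiv 𝓘(ℝ, V) (𝓡 N) E.e x).range)
    (h : M → M) (hh : ContMDiff 𝓘(ℝ, V) 𝓘(ℝ, V) 1 h) :
    ∃ D : M → EuclideanSpace ℝ (Fin N) →L[ℝ] EuclideanSpace ℝ (Fin N), HasD E h D ∧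
      ∀ x v, D x (mfderiv 𝓘(ℝ, V) (𝓡 N) E.e x v)
        = mfderiv 𝓘(ℝ, V) (𝓡 N) E.e (h x) (mfderiv 𝓘(ℝ, V) 𝓘(ℝ, V) h x v) := by
  have he : ContMDiff 𝓘(ℝ, V) (𝓡 N) 1 E.e := hsm.of_le (by exact_mod_cast le_top)
  have hinj' : ∀ x, Injective (dF V E.e x) := hinj
  set F : M → EuclideanSpace ℝ (Fin N) := E.e ∘ h with hF'
  have hF : ContMDiff 𝓘(ℝ, V) (𝓡 N) 1 F := he.comp hh
  -- chain rule
  have hch : ∀ x (v : TangentSpace 𝓘(ℝ, V) x), dF V F x v
      = mfderiv 𝓘(ℝ, V) (𝓡 N) E.e (h x) (mfderiv 𝓘(ℝ, V) 𝓘(ℝ, V) h x v) := by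
    intro x v
    have h1 := mfderiv_comp (I := 𝓘(ℝ, V)) (I' := 𝓘(ℝ, V)) (I'' := 𝓡 N) (f := h) x
      (he.mdifferentiable (by norm_num) (h x)) (hh.mdifferentiable (by norm_num) x)
    unfold dF
    rw [hF', h1]
    rfl
  -- continuity of the orthogonal-type correction
  have hKe : ∀ x w, KF V E.e E.e x w ∈ (E.P x).range := by
    intro x w
    rw [hrange x]
    have : KF V E.e E.e x w ∈ (KF V E.e E.e x).range := ⟨w, rfl⟩
    rw [range_KF E.e hinj' x] at this
    exact this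
  have hKP : ∀ x w, KF V E.e F x (E.P x w) = dF V F x (pinv (dF V E.e x) (E.P x w)) := by
    intro x w; rfl
  -- the derivative
  refine ⟨fun x => KF V E.e F x ∘L E.P x, ⟨?_, ?_, ?_, ?_⟩, ?_⟩
  · exact (continuous_KF he hF hinj').clm_comp E.contP
  · intro x
    rw [ContinuousLinearMap.comp_assoc, E.idem x]
  · intro x
    ext1 w
    rw [ContinuousLinearMap.comp_apply, ContinuousLinearMap.comp_apply]
    apply P_fix
    rw [hrange (h x)]
    unfold KF
    rw [ContinuousLinearMap.comp_apply]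
    refine ⟨mfderiv 𝓘(ℝ, V) 𝓘(ℝ, V) h x (pinv (dF V E.e x) (E.P x w)), ?_⟩
    exact (hch x _).symm
  · intro η hη
    -- bound for the norm of `KF V E.e F`
    obtain ⟨B, hB⟩ : ∃ B : ℝ, ∀ x, ‖KF V E.e F x‖ ≤ B := by
      obtain ⟨B, hB⟩ := (isCompact_range (continuous_KF he hF hinj').norm).bddAbove
      exact ⟨B, fun x => hB ⟨x, rfl⟩⟩
    obtain ⟨r1, hr1, h1⟩ := unif_approx he hF E.isom hinj' (half_pos hη)
    obtain ⟨r2, hr2, h2⟩ := E.tangent (η / 2 / (|B| + 1)) (by positivity)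
    refine ⟨min r1 r2, lt_min hr1 hr2, ?_⟩
    intro x z hxz
    have i1 := h1 x z (hxz.trans_le (min_le_left _ _))
    have i2 := h2 x z (hxz.trans_le (min_le_right _ _))
    have i3 : E.e (h z) - E.e (h x) - (KF V E.e F x ∘L E.P x) (E.e z - E.e x)
        = (F z - F x - KF V E.e F x (E.e z - E.e x))
          + KF V E.e F x (E.e z - E.e x - E.P x (E.e z - E.e x)) := by
      rw [map_sub (KF V E.e F x) (E.e z - E.e x), ContinuousLinearMap.comp_apply]
      simp only [hF', Function.comp_apply]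
      abel
    rw [i3]
    have hd0 : 0 ≤ dist z x := dist_nonneg
    calc ‖(F z - F x - KF V E.e F x (E.e z - E.e x))
          + KF V E.e F x (E.e z - E.e x - E.P x (E.e z - E.e x))‖
        ≤ ‖F z - F x - KF V E.e F x (E.e z - E.e x)‖
          + ‖KF V E.e F x (E.e z - E.e x - E.P x (E.e z - E.e x))‖ := norm_add_le _ _
      _ ≤ η / 2 * dist z x + (|B| + 1) * (η / 2 / (|B| + 1) * dist z x) := by
          have i4 := (KF V E.e F x).le_opNorm (E.e z - E.e x - E.P x (E.e z - E.e x))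
          have i5 : ‖KF V E.e F x‖ ≤ |B| + 1 := (hB x).trans ((le_abs_self B).trans (by linarith))
          have i6 := mul_le_mul i5 i2 (norm_nonneg _) (by positivity)
          linarith
      _ = η * dist z x := by
          field_simp
          ring
  · intro x v
    have i1 : E.P x (mfderiv 𝓘(ℝ, V) (𝓡 N) E.e x v) = mfderiv 𝓘(ℝ, V) (𝓡 N) E.e x v := by
      apply P_fix
      rw [hrange x]
      exact ⟨v, rfl⟩
    show KF V E.e F x (E.P x (mfderiv 𝓘(ℝ, V) (𝓡 N) E.e x v)) = _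
    rw [i1]
    have i2 : KF V E.e F x (dF V E.e x v) = dF V F x v := KF_apply hinj' x v
    rw [← hch x v]
    exact i2

end Pool.Agent.Lib.MP610fe3.Gen
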