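import Pool.Agent.Lib.MP_610fe3_an.Gen.Norm
import Pool.Agent.Lib.MP_610fe3_an.Gen.Main
import Pool.Agent.Lib.MP_610fe3_an.Gen.Public

/-!
# The splitting of an Anosov diffeomorphism, seen in the ambient space of an embedding
-/

open Set Filter Function Bundle
open scoped Manifold ContDiff Topology

namespace Pool.Agent.Lib.MP610fe3.Gen

section LinAlg

variable {T W : Type*} [AddCommGroup T] [Module ℝ T] [NormedAddCommGroup W] [NormedSpace ℝ W]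
  [FiniteDimensional ℝ W]

/-- The linear map `r` with `ι ∘ r = P`, for an injective `ι` whose range contains that
of `P`. -/
noncomputable def retr (ι : T →ₗ[ℝ] W) (hι : Injective ι) (P : W →ₗ[ℝ] W)
    (hP : ∀ w, P w ∈ LinearMap.range ι) : W →ₗ[ℝ] T :=
  (LinearEquiv.ofInjective ι hι).symm.toLinearMap ∘ₗ P.codRestrict (LinearMap.range ι) hP

theorem apply_retr {ι : T →ₗ[ℝ] W} {hι : Injective ι} {P : W →ₗ[ℝ] W}
    {hP : ∀ w, P w ∈ LinearMap.range ι} (w : W) : ι (retr ι hι P hP w) = P w := by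
  unfold retr
  have h := LinearEquiv.apply_symm_apply (LinearEquiv.ofInjective ι hι)
    (P.codRestrict (LinearMap.range ι) hP w)
  have h2 := congrArg Subtype.val h
  rw [LinearEquiv.ofInjective_apply] at h2
  exact h2

theorem retr_apply {ι : T →ₗ[ℝ] W} {hι : Injective ι} {P : W →ₗ[ℝ] W}
    {hP : ∀ w, P w ∈ LinearMap.range ι} {v : T} (hv : P (ι v) = ι v) :
    retr ι hι P hP (ι v) = v := by
  apply hι
  rw [apply_retr, hv]

/-- The endomorphism of `W` induced by an endomorphism of `T`. -/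
noncomputable def ind (ι : T →ₗ[ℝ] W) (r : W →ₗ[ℝ] T) (p : T →ₗ[ℝ] T) : W →L[ℝ] W :=
  LinearMap.toContinuousLinearMap (ι ∘ₗ p ∘ₗ r)

theorem proj_map {T T' : Type*} [AddCommGroup T] [Module ℝ T] [AddCommGroup T'] [Module ℝ T']
    (L : T →ₗ[ℝ] T') {p q : Submodule ℝ T} {p' q' : Submodule ℝ T'} (hpq : IsCompl p q)
    (hpq' : IsCompl p' q') (h1 : ∀ v ∈ p, L v ∈ p') (h2 : ∀ v ∈ q, L v ∈ q') (v : T) :
    p'.projection q' hpq' (L v) = L (p.projection q hpq v) := by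
  have h3 : v = p.projection q hpq v + q.projection p hpq.symm v :=
    (Submodule.projection_add_projection_eq_self hpq v).symm
  have h4 : L v = L (p.projection q hpq v) + L (q.projection p hpq.symm v) := by
    rw [← map_add, ← h3]
  rw [h4, map_add,
    Submodule.projection_apply_of_mem_left hpq' (h1 _ (Submodule.projection_apply_mem hpq v)),
    (Submodule.projection_apply_eq_zero_iff hpq').2
      (h2 _ (Submodule.projection_apply_mem hpq.symm v)), add_zero]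

theorem ind_apply (ι : T →ₗ[ℝ] W) (r : W →ₗ[ℝ] T) (p : T →ₗ[ℝ] T) (w : W) :
    ind ι r p w = ι (p (r w)) := rfl

end LinAlg

section Manifold

variable {V : Type*} [NormedAddCommGroup V] [NormedSpace ℝ V] {N : ℕ}
  {M : Type*} [MetricSpace M] [CompactSpace M]
  [ChartedSpace V M] [IsManifold 𝓘(ℝ, V) ∞ M]

/-- The derivative of `e`, as a linear map to the model space. -/
noncomputable def dE (V : Type*) [NormedAddCommGroup V] [NormedSpace ℝ V] [ChartedSpace V M]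
    (e : M → EuclideanSpace ℝ (Fin N)) (x : M) :
    TangentSpace 𝓘(ℝ, V) x →ₗ[ℝ] EuclideanSpace ℝ (Fin N) :=
  (show TangentSpace 𝓘(ℝ, V) x →L[ℝ] EuclideanSpace ℝ (Fin N) from
    mfderiv 𝓘(ℝ, V) (𝓡 N) e x).toLinearMap

theorem dE_comp {e : M → EuclideanSpace ℝ (Fin N)} (he : ContMDiff 𝓘(ℝ, V) (𝓡 N) ∞ e)
    {h : M → M} (hh : ContMDiff 𝓘(ℝ, V) 𝓘(ℝ, V) 1 h) (x : M) (v : TangentSpace 𝓘(ℝ, V) x) :
    dE V e (h x) (mfderiv 𝓘(ℝ, V) 𝓘(ℝ, V) h x v) = dE V (e ∘ h) x v := by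
  have h1 : MDifferentiableAt 𝓘(ℝ, V) (𝓡 N) e (h x) :=
    (he.mdifferentiable (by simp)) (h x)
  have h2 : MDifferentiableAt 𝓘(ℝ, V) 𝓘(ℝ, V) h x := (hh.mdifferentiable (by simp)) x
  have h3 := mfderiv_comp x h1 h2
  unfold dE
  rw [h3]
  rfl

theorem contMDiff_iterate {h : M → M} (hh : ContMDiff 𝓘(ℝ, V) 𝓘(ℝ, V) 1 h) (k : ℕ) :
    ContMDiff 𝓘(ℝ, V) 𝓘(ℝ, V) 1 (h^[k]) := by
  induction k with
  | zero => exact contMDiff_id
  | succ k ih => rw [Function.iterate_succ]; exact ih.comp hh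

/-- The derivative of the iterates of `f` preserve the subspaces. -/
theorem mem_iterate {h : M → M} (hh : ContMDiff 𝓘(ℝ, V) 𝓘(ℝ, V) 1 h)
    {F : ∀ x : M, Submodule ℝ (TangentSpace 𝓘(ℝ, V) x)}
    (hF : ∀ x, ∀ v ∈ F x, mfderiv 𝓘(ℝ, V) 𝓘(ℝ, V) h x v ∈ F (h x)) (k : ℕ) (x : M)
    (v : TangentSpace 𝓘(ℝ, V) x) (hv : v ∈ F x) :
    mfderiv 𝓘(ℝ, V) 𝓘(ℝ, V) (h^[k]) x v ∈ F (h^[k] x) := by
  induction k generalizing x with
  | zero =>
    have : mfderiv 𝓘(ℝ, V) 𝓘(ℝ, V) (h^[0]) x v = v := by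
      rw [Function.iterate_zero, mfderiv_id]
      rfl
    rw [this]
    exact hv
  | succ k ih =>
    have h1 : MDifferentiableAt 𝓘(ℝ, V) 𝓘(ℝ, V) (h^[k]) (h x) :=
      ((contMDiff_iterate hh k).mdifferentiable (by simp)) (h x)
    have h2 : MDifferentiableAt 𝓘(ℝ, V) 𝓘(ℝ, V) h x := (hh.mdifferentiable (by simp)) x
    have h3 := mfderiv_comp x h1 h2
    have h4 : mfderiv 𝓘(ℝ, V) 𝓘(ℝ, V) (h^[k + 1]) x v
        = mfderiv 𝓘(ℝ, V) 𝓘(ℝ, V) (h^[k]) (h x) (mfderiv 𝓘(ℝ, V) 𝓘(ℝ, V) h x v) := by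
      rw [Function.iterate_succ, h3]
      rfl
    rw [h4]
    exact ih (h x) _ (hF x v hv)

variable {E : Emb M (EuclideanSpace ℝ (Fin N))}

theorem iterD_dE (he : ContMDiff 𝓘(ℝ, V) (𝓡 N) ∞ E.e) {h : M → M}
    (hh : ContMDiff 𝓘(ℝ, V) 𝓘(ℝ, V) 1 h)
    {D : M → EuclideanSpace ℝ (Fin N) →L[ℝ] EuclideanSpace ℝ (Fin N)}
    (hD : ∀ x v, D x (dE V E.e x v) = dE V E.e (h x) (mfderiv 𝓘(ℝ, V) 𝓘(ℝ, V) h x v))
    (k : ℕ) (x : M) (v : TangentSpace 𝓘(ℝ, V) x) :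
    iterD D h k x (dE V E.e x v)
      = dE V E.e (h^[k] x) (mfderiv 𝓘(ℝ, V) 𝓘(ℝ, V) (h^[k]) x v) := by
  rw [dE_comp he (contMDiff_iterate hh k)]
  induction k generalizing x with
  | zero => rfl
  | succ k ih =>
    change iterD D h k (h x) (D x (dE V E.e x v)) = _
    rw [hD, ih (h x)]
    have h5 : MDifferentiableAt 𝓘(ℝ, V) (𝓡 N) (E.e ∘ h^[k]) (h x) :=
      (he.mdifferentiable (by simp) _).comp _
        ((contMDiff_iterate hh k).mdifferentiable (by simp) _)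
    have h2 : MDifferentiableAt 𝓘(ℝ, V) 𝓘(ℝ, V) h x := (hh.mdifferentiable (by simp)) x
    have h3 := mfderiv_comp x h5 h2
    have h6 : (E.e ∘ h^[k]) ∘ h = E.e ∘ h^[k + 1] := by
      rw [Function.iterate_succ]; rfl
    rw [h6] at h3
    unfold dE
    rw [h3]
    rfl

theorem P_mem (hr : ∀ x, (E.P x).range = (mfderiv 𝓘(ℝ, V) (𝓡 N) E.e x).range) (x : M)
    (w : EuclideanSpace ℝ (Fin N)) : (E.P x).toLinearMap w ∈ LinearMap.range (dE V E.e x) := by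
  have h : E.P x w ∈ (E.P x).range := ⟨w, rfl⟩
  rw [hr x] at h
  exact h

theorem P_dE (hr : ∀ x, (E.P x).range = (mfderiv 𝓘(ℝ, V) (𝓡 N) E.e x).range) (x : M)
    (v : TangentSpace 𝓘(ℝ, V) x) : (E.P x).toLinearMap (dE V E.e x v) = dE V E.e x v := by
  have h : dE V E.e x v ∈ (mfderiv 𝓘(ℝ, V) (𝓡 N) E.e x).range := ⟨v, rfl⟩
  rw [← hr x] at h
  obtain ⟨w, hw⟩ := h
  rw [← hw]
  have := congrArg (fun L => L w) (E.idem x)
  exact this

theorem symm_dE (he : ContMDiff 𝓘(ℝ, V) (𝓡 N) ∞ E.e) (f : M ≃ₘ^1⟮𝓘(ℝ, V), 𝓘(ℝ, V)⟯ M) (k : ℕ)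
    (x : M) (v : TangentSpace 𝓘(ℝ, V) x) :
    dE V E.e (f.symm^[k] (f^[k] x)) (mfderiv 𝓘(ℝ, V) 𝓘(ℝ, V) (f.symm^[k]) (f^[k] x)
      (mfderiv 𝓘(ℝ, V) 𝓘(ℝ, V) (f^[k]) x v)) = dE V E.e x v := by
  rw [dE_comp he (contMDiff_iterate f.symm.contMDiff k)]
  have h1 : MDifferentiableAt 𝓘(ℝ, V) (𝓡 N) (E.e ∘ f.symm^[k]) (f^[k] x) :=
    (he.mdifferentiable (by simp) _).comp _
      ((contMDiff_iterate f.symm.contMDiff k).mdifferentiable (by simp) _)
  have h2 : MDifferentiableAt 𝓘(ℝ, V) 𝓘(ℝ, V) (f^[k]) x :=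
    (contMDiff_iterate f.contMDiff k).mdifferentiable (by simp) _
  have h3 := mfderiv_comp x h1 h2
  have h4 : (E.e ∘ f.symm^[k]) ∘ f^[k] = E.e := by
    funext y
    have : LeftInverse (f.symm^[k]) (f^[k]) := LeftInverse.iterate f.left_inv k
    simp only [Function.comp_apply]
    rw [this y]
  rw [h4] at h3
  unfold dE
  rw [h3]
  rfl

end Manifold

section Main

variable {V : Type*} [NormedAddCommGroup V] [NormedSpace ℝ V] [FiniteDimensional ℝ V] {N : ℕ}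
  {M : Type*} [MetricSpace M] [CompactSpace M]
  [ChartedSpace V M] [IsManifold 𝓘(ℝ, V) ∞ M]
  [RiemannianBundle (fun x : M => TangentSpace 𝓘(ℝ, V) x)]
  [IsContinuousRiemannianBundle V (fun x : M => TangentSpace 𝓘(ℝ, V) x)]

theorem exists_split (E : Emb M (EuclideanSpace ℝ (Fin N))) (he : ContMDiff 𝓘(ℝ, V) (𝓡 N) ∞ E.e)
    (hinj : ∀ x, Injective (mfderiv 𝓘(ℝ, V) (𝓡 N) E.e x))
    (hr : ∀ x, (E.P x).range = (mfderiv 𝓘(ℝ, V) (𝓡 N) E.e x).range)
    (f : M ≃ₘ^1⟮𝓘(ℝ, V), 𝓘(ℝ, V)⟯ M)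
    (Es Eu : ∀ x : M, Submodule ℝ (TangentSpace 𝓘(ℝ, V) x)) (hA : IsAnosovSplitting f Es Eu) :
    ∃ s : Split E f.toHomeomorph, s.Hyperbolic ∧
      (∀ x, (s.S x).range = (Es x).map (mfderiv 𝓘(ℝ, V) (𝓡 N) E.e x).toLinearMap) ∧
      (∀ x, (s.U x).range = (Eu x).map (mfderiv 𝓘(ℝ, V) (𝓡 N) E.e x).toLinearMap) := by
  obtain ⟨D, hD, hDe⟩ := exists_hasD E he hinj hr f f.contMDiff
  obtain ⟨Di, hDi, hDie⟩ := exists_hasD E he hinj hr f.symm f.symm.contMDiff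
  obtain ⟨c, C2, hc, hC2, hnorm⟩ := exists_norm_bounds E.e he hinj
  have hinj' : ∀ x, Injective (dE V E.e x) := hinj
  have hDe' : ∀ x v, D x (dE V E.e x v) = dE V E.e (f x) (mfderiv 𝓘(ℝ, V) 𝓘(ℝ, V) f x v) := hDe
  have hDie' : ∀ x v, Di x (dE V E.e x v)
    = dE V E.e (f.symm x) (mfderiv 𝓘(ℝ, V) 𝓘(ℝ, V) f.symm x v) := hDie
  set r : ∀ x, EuclideanSpace ℝ (Fin N) →ₗ[ℝ] TangentSpace 𝓘(ℝ, V) x := fun x =>
    retr (dE V E.e x) (hinj' x) (E.P x).toLinearMap (P_mem hr x) with hrdef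
  have hιr : ∀ x w, dE V E.e x (r x w) = E.P x w := fun x w => apply_retr w
  have hrι : ∀ x v, r x (dE V E.e x v) = v := fun x v => retr_apply (P_dE hr x v)
  have hrP : ∀ x w, r x (E.P x w) = r x w := by
    intro x w
    rw [← hιr x w, hrι]
  have hPι : ∀ x v, E.P x (dE V E.e x v) = dE V E.e x v := fun x v => P_dE hr x v
  -- invariance
  have hs1 : ∀ x, ∀ v ∈ Es x, mfderiv 𝓘(ℝ, V) 𝓘(ℝ, V) f x v ∈ Es (f x) := by
    intro x v hv
    rw [← hA.map_s x]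
    exact ⟨v, hv, rfl⟩
  have hu1 : ∀ x, ∀ v ∈ Eu x, mfderiv 𝓘(ℝ, V) 𝓘(ℝ, V) f x v ∈ Eu (f x) := by
    intro x v hv
    rw [← hA.map_u x]
    exact ⟨v, hv, rfl⟩
  -- norms
  have hn1 : ∀ x v, c * ‖v‖ ≤ ‖dE V E.e x v‖ := by
    intro x v
    have h := (hnorm x v).1
    rw [norm_tangentSpace_vectorSpace] at h
    exact h
  have hn2 : ∀ x v, ‖dE V E.e x v‖ ≤ C2 * ‖v‖ := by
    intro x v
    have h := (hnorm x v).2
    rw [norm_tangentSpace_vectorSpace] at h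
    exact h
  obtain ⟨C0, l, hC0, hl0, hl1, hest⟩ := hA.estimate
  set A : ℝ := C2 * C0 / c with hAdef
  have hApos : 0 < A := by positivity
  have hstep : ∀ (k : ℕ) (x y : M) (v : TangentSpace 𝓘(ℝ, V) x) (w : TangentSpace 𝓘(ℝ, V) y),
      ‖w‖ ≤ C0 * l ^ k * ‖v‖ → ‖dE V E.e y w‖ ≤ A * l ^ k * ‖dE V E.e x v‖ := by
    intro k x y v w h
    calc ‖dE V E.e y w‖ ≤ C2 * ‖w‖ := hn2 y w
      _ ≤ C2 * (C0 * l ^ k * ‖v‖) := by gcongr
      _ = (A * l ^ k) * (c * ‖v‖) := by rw [hAdef]; field_simp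
      _ ≤ (A * l ^ k) * ‖dE V E.e x v‖ := by gcongr; exact hn1 x v
  have hfw : ∀ (k : ℕ) (x : M), ∀ v ∈ Es x,
      ‖iterD D f k x (dE V E.e x v)‖ ≤ A * l ^ k * ‖dE V E.e x v‖ := by
    intro k x v hv
    rw [iterD_dE he f.contMDiff hDe' k x v]
    exact hstep k x _ v _ ((hest k x).1 v hv)
  have hbw : ∀ (k : ℕ) (x : M), ∀ v ∈ Eu x,
      ‖iterD Di f.symm k x (dE V E.e x v)‖ ≤ A * l ^ k * ‖dE V E.e x v‖ := by
    intro k x v hv
    rw [iterD_dE he f.symm.contMDiff hDie' k x v]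
    exact hstep k x _ v _ ((hest k x).2 v hv)
  have hexp : ∀ (k : ℕ) (x : M), ∀ v ∈ Eu x,
      ‖dE V E.e x v‖ ≤ A * l ^ k * ‖iterD D f k x (dE V E.e x v)‖ := by
    intro k x v hv
    rw [iterD_dE he f.contMDiff hDe' k x v]
    have h1 := mem_iterate f.contMDiff hu1 k x v hv
    have h2 := hstep k (f^[k] x) _ _ _ ((hest k (f^[k] x)).2 _ h1)
    rwa [symm_dE he f k x v] at h2
  -- bounds for D
  have hbound : ∀ (G : M → EuclideanSpace ℝ (Fin N) →L[ℝ] EuclideanSpace ℝ (Fin N)),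
      Continuous G → ∃ B : ℝ, 1 ≤ B ∧ ∀ x w, ‖G x w‖ ≤ B * ‖w‖ := by
    intro G hG
    obtain ⟨B, hB⟩ := isCompact_univ.exists_bound_of_continuousOn (f := G) hG.continuousOn
    refine ⟨max B 1, le_max_right _ _, fun x w => ?_⟩
    calc ‖G x w‖ ≤ ‖G x‖ * ‖w‖ := ContinuousLinearMap.le_opNorm _ _
      _ ≤ max B 1 * ‖w‖ := by
        gcongr
        exact (hB x (mem_univ x)).trans (le_max_left _ _)
  obtain ⟨B, hB1, hB⟩ := hbound D hD.cont
  obtain ⟨B', hB1', hB'⟩ := hbound E.P E.contP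
  have hBk : ∀ (k : ℕ) (x : M) (w : EuclideanSpace ℝ (Fin N)),
      ‖iterD D f k x w‖ ≤ B ^ k * ‖w‖ := by
    intro k
    induction k with
    | zero => intro x w; simp [iterD]
    | succ k ih =>
      intro x w
      change ‖iterD D f k (f x) (D x w)‖ ≤ _
      calc ‖iterD D f k (f x) (D x w)‖ ≤ B ^ k * ‖D x w‖ := ih _ _
        _ ≤ B ^ k * (B * ‖w‖) := by gcongr; exact hB x w
        _ = B ^ (k + 1) * ‖w‖ := by ring
  -- projections
  set ps : ∀ x, TangentSpace 𝓘(ℝ, V) x →ₗ[ℝ] TangentSpace 𝓘(ℝ, V) x := fun x =>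
    (Es x).projection (Eu x) (hA.isCompl x) with hps
  set pu : ∀ x, TangentSpace 𝓘(ℝ, V) x →ₗ[ℝ] TangentSpace 𝓘(ℝ, V) x := fun x =>
    (Eu x).projection (Es x) (hA.isCompl x).symm with hpu
  have hadd : ∀ x v, ps x v + pu x v = v := fun x v =>
    Submodule.projection_add_projection_eq_self (hA.isCompl x) v
  have hpsmem : ∀ x v, ps x v ∈ Es x := fun x v =>
    Submodule.projection_apply_mem (hA.isCompl x) v
  have hpumem : ∀ x v, pu x v ∈ Eu x := fun x v =>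
    Submodule.projection_apply_mem (hA.isCompl x).symm v
  have hpss : ∀ x, ∀ v ∈ Es x, ps x v = v := fun x v hv =>
    Submodule.projection_apply_of_mem_left (hA.isCompl x) hv
  have hpuu : ∀ x, ∀ v ∈ Eu x, pu x v = v := fun x v hv =>
    Submodule.projection_apply_of_mem_left (hA.isCompl x).symm hv
  have hpsu : ∀ x, ∀ v ∈ Eu x, ps x v = 0 := fun x v hv =>
    (Submodule.projection_apply_eq_zero_iff (hA.isCompl x)).2 hv
  have hpus : ∀ x, ∀ v ∈ Es x, pu x v = 0 := fun x v hv =>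
    (Submodule.projection_apply_eq_zero_iff (hA.isCompl x).symm).2 hv
  have hcs : ∀ x v, ps (f x) (mfderiv 𝓘(ℝ, V) 𝓘(ℝ, V) f x v) = mfderiv 𝓘(ℝ, V) 𝓘(ℝ, V) f x (ps x v) :=
    fun x v => proj_map (mfderiv 𝓘(ℝ, V) 𝓘(ℝ, V) f x).toLinearMap (hA.isCompl x)
      (hA.isCompl (f x)) (hs1 x) (hu1 x) v
  have hcu : ∀ x v, pu (f x) (mfderiv 𝓘(ℝ, V) 𝓘(ℝ, V) f x v) = mfderiv 𝓘(ℝ, V) 𝓘(ℝ, V) f x (pu x v) :=
    fun x v => proj_map (mfderiv 𝓘(ℝ, V) 𝓘(ℝ, V) f x).toLinearMap (hA.isCompl x).symm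
      (hA.isCompl (f x)).symm (hu1 x) (hs1 x) v
  -- bounded projections
  obtain ⟨k0, hk0⟩ : ∃ k : ℕ, A * l ^ k ≤ 1 / 2 := by
    have h := (tendsto_pow_atTop_nhds_zero_of_lt_one hl0.le hl1).const_mul A
    rw [mul_zero] at h
    obtain ⟨k, hk⟩ := (h.eventually (gt_mem_nhds (by norm_num : (0 : ℝ) < 1 / 2))).exists
    exact ⟨k, hk.le⟩
  have hkey : ∀ (x : M) (v : TangentSpace 𝓘(ℝ, V) x),
      ‖dE V E.e x (pu x v)‖ ≤ (B ^ k0 + 1) * ‖dE V E.e x v‖ := by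
    intro x v
    set s := dE V E.e x (ps x v) with hs
    set u := dE V E.e x (pu x v) with hu
    have h1 : dE V E.e x v = s + u := by rw [hs, hu, ← map_add, hadd]
    have h2 : ‖iterD D f k0 x s‖ ≤ 1 / 2 * ‖s‖ :=
      (hfw k0 x _ (hpsmem x v)).trans (by gcongr)
    have h3 : ‖u‖ ≤ 1 / 2 * ‖iterD D f k0 x u‖ :=
      (hexp k0 x _ (hpumem x v)).trans (by gcongr)
    have h4 : iterD D f k0 x u = iterD D f k0 x (dE V E.e x v) - iterD D f k0 x s := by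
      rw [h1, map_add]; abel
    have h5 : ‖iterD D f k0 x u‖ ≤ B ^ k0 * ‖dE V E.e x v‖ + 1 / 2 * ‖s‖ := by
      rw [h4]
      exact (norm_sub_le _ _).trans (add_le_add (hBk k0 x _) h2)
    have h6 : ‖s‖ ≤ ‖dE V E.e x v‖ + ‖u‖ := by
      have : s = dE V E.e x v - u := by rw [h1]; abel
      rw [this]
      exact norm_sub_le _ _
    have h7 : 0 ≤ B ^ k0 * ‖dE V E.e x v‖ := by positivity
    nlinarith [norm_nonneg (dE V E.e x v), norm_nonneg u, norm_nonneg s]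
  have hkey' : ∀ (x : M) (v : TangentSpace 𝓘(ℝ, V) x),
      ‖dE V E.e x (ps x v)‖ ≤ (B ^ k0 + 2) * ‖dE V E.e x v‖ := by
    intro x v
    have : dE V E.e x (ps x v) = dE V E.e x v - dE V E.e x (pu x v) := by
      rw [← map_sub]
      congr 1
      rw [eq_sub_iff_add_eq, hadd]
    rw [this]
    calc _ ≤ ‖dE V E.e x v‖ + ‖dE V E.e x (pu x v)‖ := norm_sub_le _ _
      _ ≤ ‖dE V E.e x v‖ + (B ^ k0 + 1) * ‖dE V E.e x v‖ := by gcongr; exact hkey x v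
      _ = _ := by ring
  have hS : ∀ x w, ‖dE V E.e x (ps x (r x w))‖ ≤ (B ^ k0 + 2) * B' * ‖w‖ := by
    intro x w
    calc _ ≤ (B ^ k0 + 2) * ‖dE V E.e x (r x w)‖ := hkey' x _
      _ ≤ (B ^ k0 + 2) * (B' * ‖w‖) := by
        gcongr
        rw [hιr]
        exact hB' x w
      _ = _ := by ring
  have hU : ∀ x w, ‖dE V E.e x (pu x (r x w))‖ ≤ (B ^ k0 + 1) * B' * ‖w‖ := by
    intro x w
    calc _ ≤ (B ^ k0 + 1) * ‖dE V E.e x (r x w)‖ := hkey x _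
      _ ≤ (B ^ k0 + 1) * (B' * ‖w‖) := by
        gcongr
        rw [hιr]
        exact hB' x w
      _ = _ := by ring
  have hDw : ∀ x w, D x w = dE V E.e (f x) (mfderiv 𝓘(ℝ, V) 𝓘(ℝ, V) f x (r x w)) := by
    intro x w
    have h1 : D x w = D x (E.P x w) := (congrArg (fun L => L w) (hD.right x)).symm
    rw [h1, ← hιr x w, hDe']
  refine ⟨{
    D := D
    Di := Di
    hD := hD
    hDi := hDi
    inv1 := ?_
    inv2 := ?_
    S := fun x => ind (dE V E.e x) (r x) (ps x)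
    U := fun x => ind (dE V E.e x) (r x) (pu x)
    add := ?_
    SS := ?_
    UU := ?_
    SU := ?_
    US := ?_
    PS := ?_
    SP := ?_
    PU := ?_
    UP := ?_
    DS := ?_
    DU := ?_
    bdd := ?_ }, ?_, ?_, ?_⟩
  · intro x
    ext1 w
    change Di (f x) (D x w) = E.P x w
    rw [hDw, hDie']
    have h := symm_dE he f 1 x (r x w)
    rw [hιr] at h
    exact h
  · intro x
    ext1 w
    change D (f.symm x) (Di x w) = E.P x w
    have h1 : Di x w = Di x (E.P x w) := (congrArg (fun L => L w) (hDi.right x)).symm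
    rw [h1, ← hιr x w, hDie', hDe']
    exact symm_dE he f.symm 1 x (r x w)
  · intro x
    ext1 w
    change dE V E.e x (ps x (r x w)) + dE V E.e x (pu x (r x w)) = E.P x w
    rw [← map_add, hadd, hιr]
  · intro x
    ext1 w
    change dE V E.e x (ps x (r x (dE V E.e x (ps x (r x w))))) = dE V E.e x (ps x (r x w))
    rw [hrι, hpss x _ (hpsmem x _)]
  · intro x
    ext1 w
    change dE V E.e x (pu x (r x (dE V E.e x (pu x (r x w))))) = dE V E.e x (pu x (r x w))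
    rw [hrι, hpuu x _ (hpumem x _)]
  · intro x
    ext1 w
    change dE V E.e x (ps x (r x (dE V E.e x (pu x (r x w))))) = 0
    rw [hrι, hpsu x _ (hpumem x _), map_zero]
  · intro x
    ext1 w
    change dE V E.e x (pu x (r x (dE V E.e x (ps x (r x w))))) = 0
    rw [hrι, hpus x _ (hpsmem x _), map_zero]
  · intro x
    ext1 w
    exact hPι x _
  · intro x
    ext1 w
    change dE V E.e x (ps x (r x (E.P x w))) = dE V E.e x (ps x (r x w))
    rw [hrP]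
  · intro x
    ext1 w
    exact hPι x _
  · intro x
    ext1 w
    change dE V E.e x (pu x (r x (E.P x w))) = dE V E.e x (pu x (r x w))
    rw [hrP]
  · intro x
    ext1 w
    change D x (dE V E.e x (ps x (r x w))) = dE V E.e (f x) (ps (f x) (r (f x) (D x w)))
    rw [hDw x w, hrι, hcs, hDe']
  · intro x
    ext1 w
    change D x (dE V E.e x (pu x (r x w))) = dE V E.e (f x) (pu (f x) (r (f x) (D x w)))
    rw [hDw x w, hrι, hcu, hDe']
  · refine ⟨(B ^ k0 + 2) * B', fun x => ⟨?_, ?_⟩⟩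
    · exact ContinuousLinearMap.opNorm_le_bound _ (by positivity) (hS x)
    · refine ContinuousLinearMap.opNorm_le_bound _ (by positivity) fun w => (hU x w).trans ?_
      gcongr
      norm_num
  · refine ⟨A * ((B ^ k0 + 2) * B'), l, by positivity, hl0, hl1, fun k x w => ⟨?_, ?_⟩⟩
    · change ‖iterD D f k x (dE V E.e x (ps x (r x w)))‖ ≤ _
      calc _ ≤ A * l ^ k * ‖dE V E.e x (ps x (r x w))‖ := hfw k x _ (hpsmem x _)
        _ ≤ A * l ^ k * ((B ^ k0 + 2) * B' * ‖w‖) := by gcongr; exact hS x w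
        _ = _ := by ring
    · change ‖iterD Di f.symm k x (dE V E.e x (pu x (r x w)))‖ ≤ _
      calc _ ≤ A * l ^ k * ‖dE V E.e x (pu x (r x w))‖ := hbw k x _ (hpumem x _)
        _ ≤ A * l ^ k * ((B ^ k0 + 2) * B' * ‖w‖) := by
          gcongr
          refine (hU x w).trans ?_
          gcongr
          norm_num
        _ = _ := by ring
  · intro x
    ext w
    constructor
    · rintro ⟨w', rfl⟩
      exact ⟨ps x (r x w'), hpsmem x _, rfl⟩
    · rintro ⟨v, hv, rfl⟩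
      refine ⟨dE V E.e x v, ?_⟩
      change dE V E.e x (ps x (r x (dE V E.e x v))) = dE V E.e x v
      rw [hrι, hpss x v hv]
  · intro x
    ext w
    constructor
    · rintro ⟨w', rfl⟩
      exact ⟨pu x (r x w'), hpumem x _, rfl⟩
    · rintro ⟨v, hv, rfl⟩
      refine ⟨dE V E.e x v, ?_⟩
      change dE V E.e x (pu x (r x (dE V E.e x v))) = dE V E.e x v
      rw [hrι, hpuu x v hv]

end Main

end Pool.Agent.Lib.MP610fe3.Gen
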