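import Mathlib

/-!
# Comparison of norms for an immersion of a compact Riemannian manifold
-/

open Set Filter Function Bundle
open scoped Manifold ContDiff Topology

namespace Pool.Agent.Lib.MP610fe3.Gen

section Local

variable (V : Type*) [NormedAddCommGroup V] [NormedSpace ℝ V] {N : ℕ}
  {M : Type*} [TopologicalSpace M]
  [ChartedSpace V M] [IsManifold 𝓘(ℝ, V) ∞ M]

/-- The derivative of `e` at `y` in the trivialization of the tangent bundle around `x₀`. -/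
noncomputable def locD (e : M → EuclideanSpace ℝ (Fin N)) (x₀ y : M) :
    V →L[ℝ] EuclideanSpace ℝ (Fin N) :=
  (show TangentSpace 𝓘(ℝ, V) y →L[ℝ] EuclideanSpace ℝ (Fin N) from mfderiv 𝓘(ℝ, V) (𝓡 N) e y) ∘L
    (trivializationAt V (fun x : M => TangentSpace 𝓘(ℝ, V) x) x₀).symmL ℝ y

theorem locD_continuousAt {e : M → EuclideanSpace ℝ (Fin N)} (he : ContMDiff 𝓘(ℝ, V) (𝓡 N) ∞ e)
    (x₀ : M) : ContinuousAt (locD V e x₀) x₀ := by
  have h := (he.contMDiffAt (x := x₀)).mfderiv_const (m := 0) (by simp)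
  have h2 := h.continuousAt
  refine h2.congr ?_
  refine Eventually.of_forall fun y => ?_
  change ContinuousLinearMap.inCoordinates _ _ _ _ _ _ _ _ _ = _
  unfold ContinuousLinearMap.inCoordinates
  have h3 := TangentBundle.continuousLinearMapAt_model_space (𝕜 := ℝ)
    (F := EuclideanSpace ℝ (Fin N)) (e x₀) (e y)
  rw [h3]
  rfl

theorem mfderiv_eq_locD {e : M → EuclideanSpace ℝ (Fin N)} {x₀ y : M}
    (hy : y ∈ (trivializationAt V
      (fun x : M => TangentSpace 𝓘(ℝ, V) x) x₀).baseSet) (v : TangentSpace 𝓘(ℝ, V) y) :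
    (mfderiv 𝓘(ℝ, V) (𝓡 N) e y v : EuclideanSpace ℝ (Fin N)) =
      locD V e x₀ y ((trivializationAt V
        (fun x : M => TangentSpace 𝓘(ℝ, V) x) x₀).continuousLinearMapAt ℝ y v) := by
  have h := Trivialization.symmL_continuousLinearMapAt (R := ℝ)
    (trivializationAt V (fun x : M => TangentSpace 𝓘(ℝ, V) x) x₀) hy v
  change _ = mfderiv 𝓘(ℝ, V) (𝓡 N) e y _
  conv_lhs => rw [← h]
  rfl

theorem locD_injective {e : M → EuclideanSpace ℝ (Fin N)}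
    (hinj : ∀ x, Injective (mfderiv 𝓘(ℝ, V) (𝓡 N) e x)) {x₀ y : M}
    (hy : y ∈ (trivializationAt V
      (fun x : M => TangentSpace 𝓘(ℝ, V) x) x₀).baseSet) : Injective (locD V e x₀ y) := by
  intro a b hab
  have h1 := hinj y hab
  have h := Trivialization.continuousLinearMapAt_symmL (R := ℝ)
    (trivializationAt V (fun x : M => TangentSpace 𝓘(ℝ, V) x) x₀) hy
  rw [← h a, ← h b]
  exact congrArg _ h1

theorem locD_bounds [FiniteDimensional ℝ V] {e : M → EuclideanSpace ℝ (Fin N)} (he : ContMDiff 𝓘(ℝ, V) (𝓡 N) ∞ e)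
    (hinj : ∀ x, Injective (mfderiv 𝓘(ℝ, V) (𝓡 N) e x)) (x₀ : M) :
    ∃ c C : ℝ, 0 < c ∧ 0 < C ∧ ∀ᶠ y in 𝓝 x₀, ∀ w : V,
      c * ‖w‖ ≤ ‖locD V e x₀ y w‖ ∧ ‖locD V e x₀ y w‖ ≤ C * ‖w‖ := by
  have hx₀ : x₀ ∈ (trivializationAt V
      (fun x : M => TangentSpace 𝓘(ℝ, V) x) x₀).baseSet :=
    FiberBundle.mem_baseSet_trivializationAt' x₀
  have hi := locD_injective V hinj hx₀
  obtain ⟨K, hK, hanti⟩ := LinearMap.exists_antilipschitzWith
    (locD V e x₀ x₀ : V →ₗ[ℝ] EuclideanSpace ℝ (Fin N))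
    (LinearMap.ker_eq_bot.2 hi)
  have hK' : (0 : ℝ) < K := hK
  have hlow : ∀ w, ‖w‖ ≤ K * ‖locD V e x₀ x₀ w‖ := by
    intro w
    have := hanti.le_mul_dist w 0
    simpa using this
  have hcont := locD_continuousAt V he x₀
  have hev : ∀ᶠ y in 𝓝 x₀, ‖locD V e x₀ y - locD V e x₀ x₀‖ < 1 / (2 * K) := by
    have h := Metric.tendsto_nhds.1 hcont (1 / (2 * K)) (by positivity)
    filter_upwards [h] with y hy
    rwa [dist_eq_norm] at hy
  refine ⟨1 / (2 * K), ‖locD V e x₀ x₀‖ + 1 / (2 * K), by positivity, by positivity, ?_⟩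
  filter_upwards [hev] with y hy w
  have h1 : ‖(locD V e x₀ y - locD V e x₀ x₀) w‖ ≤ 1 / (2 * K) * ‖w‖ :=
    (ContinuousLinearMap.le_opNorm _ _).trans (by gcongr)
  have h2 : locD V e x₀ y w = locD V e x₀ x₀ w + (locD V e x₀ y - locD V e x₀ x₀) w := by
    simp
  constructor
  · have h3 : (1 / K : ℝ) * ‖w‖ ≤ ‖locD V e x₀ x₀ w‖ := by
      rw [div_mul_eq_mul_div, one_mul, div_le_iff₀ hK']
      linarith [hlow w, mul_comm (K : ℝ) ‖locD V e x₀ x₀ w‖]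
    have h4 : ‖locD V e x₀ x₀ w‖ ≤ ‖locD V e x₀ y w‖
        + ‖(locD V e x₀ y - locD V e x₀ x₀) w‖ := by
      have : locD V e x₀ x₀ w = locD V e x₀ y w - (locD V e x₀ y - locD V e x₀ x₀) w := by
        simp
      calc ‖locD V e x₀ x₀ w‖ = ‖locD V e x₀ y w - (locD V e x₀ y - locD V e x₀ x₀) w‖ := by
            rw [← this]
        _ ≤ _ := norm_sub_le _ _
    have h5 : (1 / K : ℝ) * ‖w‖ = 1 / (2 * K) * ‖w‖ + 1 / (2 * K) * ‖w‖ := by
      field_simp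
      ring
    linarith
  · rw [h2]
    calc ‖locD V e x₀ x₀ w + (locD V e x₀ y - locD V e x₀ x₀) w‖
        ≤ ‖locD V e x₀ x₀ w‖ + ‖(locD V e x₀ y - locD V e x₀ x₀) w‖ := norm_add_le _ _
      _ ≤ ‖locD V e x₀ x₀‖ * ‖w‖ + 1 / (2 * K) * ‖w‖ := by
          gcongr
          exact ContinuousLinearMap.le_opNorm _ _
      _ = _ := by ring

end Local

section Norm

variable {V : Type*} [NormedAddCommGroup V] [NormedSpace ℝ V] [FiniteDimensional ℝ V] {N : ℕ}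
  {M : Type*} [MetricSpace M] [CompactSpace M]
  [ChartedSpace V M] [IsManifold 𝓘(ℝ, V) ∞ M]
  [RiemannianBundle (fun x : M => TangentSpace 𝓘(ℝ, V) x)]
  [IsContinuousRiemannianBundle V (fun x : M => TangentSpace 𝓘(ℝ, V) x)]

theorem exists_norm_bounds (e : M → EuclideanSpace ℝ (Fin N)) (he : ContMDiff 𝓘(ℝ, V) (𝓡 N) ∞ e)
    (hinj : ∀ x, Injective (mfderiv 𝓘(ℝ, V) (𝓡 N) e x)) :
    ∃ c C : ℝ, 0 < c ∧ 0 < C ∧ ∀ (x : M) (v : TangentSpace 𝓘(ℝ, V) x),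
      c * ‖v‖ ≤ ‖mfderiv 𝓘(ℝ, V) (𝓡 N) e x v‖ ∧ ‖mfderiv 𝓘(ℝ, V) (𝓡 N) e x v‖ ≤ C * ‖v‖ := by
  have key : ∀ s : Set M, IsCompact s → ∃ c C : ℝ, 0 < c ∧ 0 < C ∧ ∀ x ∈ s,
      ∀ v : TangentSpace 𝓘(ℝ, V) x,
      c * ‖v‖ ≤ ‖mfderiv 𝓘(ℝ, V) (𝓡 N) e x v‖ ∧ ‖mfderiv 𝓘(ℝ, V) (𝓡 N) e x v‖ ≤ C * ‖v‖ := by
    intro s hs
    refine hs.induction_on (p := fun s => ∃ c C : ℝ, 0 < c ∧ 0 < C ∧ ∀ x ∈ s,
      ∀ v : TangentSpace 𝓘(ℝ, V) x,
      c * ‖v‖ ≤ ‖mfderiv 𝓘(ℝ, V) (𝓡 N) e x v‖ ∧ ‖mfderiv 𝓘(ℝ, V) (𝓡 N) e x v‖ ≤ C * ‖v‖)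
      ?_ ?_ ?_ ?_
    · exact ⟨1, 1, one_pos, one_pos, by simp⟩
    · rintro s t hst ⟨c, C, hc, hC, h⟩
      exact ⟨c, C, hc, hC, fun x hx => h x (hst hx)⟩
    · rintro s t ⟨c, C, hc, hC, h⟩ ⟨c', C', hc', hC', h'⟩
      refine ⟨min c c', max C C', lt_min hc hc', lt_max_of_lt_left hC, ?_⟩
      rintro x (hx | hx) v
      · exact ⟨(mul_le_mul_of_nonneg_right (min_le_left _ _) (norm_nonneg _)).trans (h x hx v).1,
          (h x hx v).2.trans (mul_le_mul_of_nonneg_right (le_max_left _ _) (norm_nonneg _))⟩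
      · exact ⟨(mul_le_mul_of_nonneg_right (min_le_right _ _) (norm_nonneg _)).trans (h' x hx v).1,
          (h' x hx v).2.trans (mul_le_mul_of_nonneg_right (le_max_right _ _) (norm_nonneg _))⟩
    · intro x₀ _
      obtain ⟨c, C, hc, hC, hev⟩ := locD_bounds V he hinj x₀
      obtain ⟨C1, hC1, h1⟩ := eventually_norm_trivializationAt_lt V
        (fun x : M => TangentSpace 𝓘(ℝ, V) x) x₀
      obtain ⟨C2, hC2, h2⟩ := eventually_norm_symmL_trivializationAt_lt V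
        (fun x : M => TangentSpace 𝓘(ℝ, V) x) x₀
      have hb : (trivializationAt V
          (fun x : M => TangentSpace 𝓘(ℝ, V) x) x₀).baseSet ∈ 𝓝 x₀ :=
        (Trivialization.open_baseSet _).mem_nhds (FiberBundle.mem_baseSet_trivializationAt' x₀)
      refine ⟨{y | (∀ w : V,
        c * ‖w‖ ≤ ‖locD V e x₀ y w‖ ∧ ‖locD V e x₀ y w‖ ≤ C * ‖w‖) ∧
        ‖Trivialization.continuousLinearMapAt ℝ (trivializationAt V
          (fun x : M => TangentSpace 𝓘(ℝ, V) x) x₀) y‖ < C1 ∧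
        ‖Trivialization.symmL ℝ (trivializationAt V
          (fun x : M => TangentSpace 𝓘(ℝ, V) x) x₀) y‖ < C2 ∧
        y ∈ (trivializationAt V
          (fun x : M => TangentSpace 𝓘(ℝ, V) x) x₀).baseSet},
        mem_nhdsWithin_of_mem_nhds (hev.and (h1.and (h2.and hb))), c / C2, C * C1,
        by positivity, by positivity, ?_⟩
      rintro y ⟨hy1, hy2, hy3, hy4⟩ v
      rw [norm_tangentSpace_vectorSpace]
      have hmf := mfderiv_eq_locD V (e := e) hy4 v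
      have hmf' : (letI W : EuclideanSpace ℝ (Fin N) := mfderiv 𝓘(ℝ, V) (𝓡 N) e y v; W) =
        locD V e x₀ y ((trivializationAt V
        (fun x : M => TangentSpace 𝓘(ℝ, V) x) x₀).continuousLinearMapAt ℝ y v) := hmf
      rw [hmf']
      set w := (trivializationAt V
        (fun x : M => TangentSpace 𝓘(ℝ, V) x) x₀).continuousLinearMapAt ℝ y v with hw
      have hvw : v = Trivialization.symmL ℝ (trivializationAt V
          (fun x : M => TangentSpace 𝓘(ℝ, V) x) x₀) y w :=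
        (Trivialization.symmL_continuousLinearMapAt (R := ℝ) _ hy4 v).symm
      have hv : ‖v‖ ≤ C2 * ‖w‖ := by
        rw [hvw]
        exact (ContinuousLinearMap.le_opNorm _ _).trans (by gcongr)
      have hw' : ‖w‖ ≤ C1 * ‖v‖ := by
        rw [hw]
        exact (ContinuousLinearMap.le_opNorm _ _).trans (by gcongr)
      constructor
      · calc c / C2 * ‖v‖ ≤ c / C2 * (C2 * ‖w‖) := by gcongr
          _ = c * ‖w‖ := by field_simp
          _ ≤ _ := (hy1 w).1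
      · calc _ ≤ C * ‖w‖ := (hy1 w).2
          _ ≤ C * (C1 * ‖v‖) := by gcongr
          _ = _ := by ring
  obtain ⟨c, C, hc, hC, h⟩ := key univ isCompact_univ
  exact ⟨c, C, hc, hC, fun x v => h x (mem_univ x) v⟩

end Norm

end Pool.Agent.Lib.MP610fe3.Gen
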