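import Mathlib

/-!
# Moore-Penrose inverse of an injective linear map into a Euclidean space
-/

open Set Filter Function
open scoped Topology

namespace Pool.Agent.Lib.MP610fe3.Gen

/-- abbreviation for the Euclidean space -/
abbrev EE (n : ℕ) := EuclideanSpace ℝ (Fin n)

variable {N : ℕ} {V : Type*} [NormedAddCommGroup V] [NormedSpace ℝ V] [FiniteDimensional ℝ V]

open ContinuousLinearMap

/-- the transpose: `y ↦ ⟨y, A ·⟩` -/
noncomputable def tr (A : V →L[ℝ] EE N) : EE N →L[ℝ] (V →L[ℝ] ℝ) :=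
  ((ContinuousLinearMap.compL ℝ V (EE N) ℝ).flip A) ∘L (innerSL ℝ)

lemma tr_apply (A : V →L[ℝ] EE N) (y : EE N) (v : V) : tr A y v = inner ℝ y (A v) := rfl

lemma continuous_tr : Continuous (fun A : V →L[ℝ] EE N => tr A) := by
  unfold tr
  exact ((ContinuousLinearMap.compL ℝ V (EE N) ℝ).flip.continuous).clm_comp continuous_const

/-- Moore-Penrose inverse (meaningful for injective maps). -/
noncomputable def pinv (A : V →L[ℝ] EE N) : EE N →L[ℝ] V :=
  (ContinuousLinearMap.inverse (tr A ∘L A)) ∘L tr A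

omit [FiniteDimensional ℝ V] in
lemma gram_inj (A : V →L[ℝ] EE N) (hA : Injective A) : Injective (tr A ∘L A) := by
  rw [injective_iff_map_eq_zero]
  intro v hv
  have h1 : (tr A ∘L A) v v = inner ℝ (A v) (A v) := rfl
  rw [hv, ContinuousLinearMap.zero_apply] at h1
  have h2 : A v = 0 := inner_self_eq_zero.1 h1.symm
  exact hA (by rw [h2, map_zero])

lemma gram_equiv (A : V →L[ℝ] EE N) (hA : Injective A) :
    ∃ G : V ≃L[ℝ] (V →L[ℝ] ℝ), (G : V →L[ℝ] (V →L[ℝ] ℝ)) = tr A ∘L A := by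
  have h := gram_inj A hA
  have hd : Module.finrank ℝ V = Module.finrank ℝ (V →L[ℝ] ℝ) := by
    have e1 : (V →ₗ[ℝ] ℝ) ≃ₗ[ℝ] (V →L[ℝ] ℝ) := LinearMap.toContinuousLinearMap
    rw [← e1.finrank_eq]
    exact (Subspace.dual_finrank_eq (K := ℝ) (V := V)).symm
  let L : V ≃ₗ[ℝ] (V →L[ℝ] ℝ) :=
    LinearEquiv.ofInjectiveOfFinrankEq (tr A ∘L A).toLinearMap h hd
  refine ⟨L.toContinuousLinearEquiv, ?_⟩
  ext v
  rfl

lemma pinv_comp (A : V →L[ℝ] EE N) (hA : Injective A) :
    pinv A ∘L A = ContinuousLinearMap.id ℝ V := by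
  obtain ⟨G, hG⟩ := gram_equiv A hA
  unfold pinv
  rw [ContinuousLinearMap.comp_assoc, ← hG, ContinuousLinearMap.inverse_equiv]
  ext v
  simp

lemma pinv_apply (A : V →L[ℝ] EE N) (hA : Injective A) (v : V) : pinv A (A v) = v := by
  have := congrArg (fun L : V →L[ℝ] V => L v) (pinv_comp A hA)
  simpa using this

omit [FiniteDimensional ℝ V] in
lemma pinv_of_tr_zero (A : V →L[ℝ] EE N) (w : EE N) (hw : tr A w = 0) :
    pinv A w = 0 := by
  unfold pinv
  rw [ContinuousLinearMap.comp_apply, hw, map_zero]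

lemma tr_sub (A : V →L[ℝ] EE N) (hA : Injective A) (w : EE N) :
    tr A (w - A (pinv A w)) = 0 := by
  obtain ⟨G, hG⟩ := gram_equiv A hA
  have h1 : tr A (A (pinv A w)) = tr A w := by
    have h2 : tr A (A (pinv A w)) = (tr A ∘L A) (pinv A w) := rfl
    rw [h2, ← hG]
    unfold pinv
    rw [← hG, ContinuousLinearMap.inverse_equiv]
    simp
  rw [map_sub, h1, sub_self]

lemma pinv_unique (A : V →L[ℝ] EE N) (hA : Injective A) (L : EE N →L[ℝ] V)
    (h1 : ∀ v, L (A v) = v) (h2 : ∀ w, tr A w = 0 → L w = 0) : L = pinv A := by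
  ext1 w
  have h3 := h2 _ (tr_sub A hA w)
  rw [map_sub, sub_eq_zero, h1] at h3
  exact h3

lemma continuousAt_pinv (A : V →L[ℝ] EE N) (hA : Injective A) : ContinuousAt pinv A := by
  have : CompleteSpace V := FiniteDimensional.complete ℝ V
  obtain ⟨G, hG⟩ := gram_equiv A hA
  have h1 : Continuous (fun B : V →L[ℝ] EE N => tr B) := continuous_tr
  have h2 : Continuous (fun B : V →L[ℝ] EE N => tr B ∘L B) := h1.clm_comp continuous_id
  have h3 : ContinuousAt (ContinuousLinearMap.inverse : (V →L[ℝ] (V →L[ℝ] ℝ)) → _)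
      (tr A ∘L A) := by
    rw [← hG]
    exact (contDiffAt_map_inverse (𝕜 := ℝ) (n := 0) G).continuousAt
  have h4 : ContinuousAt (fun B : V →L[ℝ] EE N => ContinuousLinearMap.inverse (tr B ∘L B)) A :=
    ContinuousAt.comp (f := fun B : V →L[ℝ] EE N => tr B ∘L B) h3 h2.continuousAt
  exact h4.clm_comp h1.continuousAt

/-- behaviour under reparametrization -/
lemma pinv_comp_equiv (B : V →L[ℝ] EE N) (hB : Injective B) (C : V ≃L[ℝ] V) :
    pinv (B ∘L (C : V →L[ℝ] V)) = (C.symm : V →L[ℝ] V) ∘L pinv B := by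
  symm
  have hBC : Injective (B ∘L (C : V →L[ℝ] V)) := by
    intro a b hab
    exact C.injective (hB hab)
  refine pinv_unique _ hBC _ ?_ ?_
  · intro v
    have := pinv_apply B hB (C v)
    simp [this]
  · intro w hw
    have h2 : tr B w = 0 := by
      ext v
      have h3 := congrArg (fun L : V →L[ℝ] ℝ => L (C.symm v)) hw
      simp only [tr_apply, ContinuousLinearMap.comp_apply, ContinuousLinearEquiv.coe_coe,
        C.apply_symm_apply, ContinuousLinearMap.zero_apply] at h3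
      rw [tr_apply, h3, ContinuousLinearMap.zero_apply]
    rw [ContinuousLinearMap.comp_apply, pinv_of_tr_zero B w h2, map_zero]

end Pool.Agent.Lib.MP610fe3.Gen
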