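import Pool.Agent.Lib.MP_610fe3_an.Defs
import Pool.Agent.Lib.MP_610fe3_an.Gen.Pinv

/-!
# Derivatives in charts (helper33)
-/

open Set Filter Function Bundle
open scoped Manifold ContDiff Topology

namespace Pool.Agent.Lib.MP610fe3.Gen

variable {N N' : ℕ} {V : Type*} [NormedAddCommGroup V] [NormedSpace ℝ V] [FiniteDimensional ℝ V]
  {M : Type*} [MetricSpace M]
  [ChartedSpace V M] [IsManifold 𝓘(ℝ, V) ∞ M]

/-- the derivative of a map to a Euclidean space -/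
noncomputable def dF (V : Type*) [NormedAddCommGroup V] [NormedSpace ℝ V] {N : ℕ}
    {M : Type*} [MetricSpace M]
    [ChartedSpace V M] (F : M → EE N) (x : M) : V →L[ℝ] EE N := mfderiv 𝓘(ℝ, V) (𝓡 N) F x

/-- chart expression -/
noncomputable def loc (F : M → EE N) (x0 : M) : V → EE N := F ∘ (extChartAt 𝓘(ℝ, V) x0).symm

/-- derivative of the chart -/
noncomputable def chartD (x0 x : M) : V →L[ℝ] V :=
  mfderiv 𝓘(ℝ, V) 𝓘(ℝ, V) (extChartAt 𝓘(ℝ, V) x0) x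

lemma contDiffOn_loc {F : M → EE N} (hF : ContMDiff 𝓘(ℝ, V) (𝓡 N) 1 F) (x0 : M) :
    ContDiffOn ℝ 1 (loc F x0) (extChartAt 𝓘(ℝ, V) x0).target := by
  have h1 : ContMDiffOn 𝓘(ℝ, V) 𝓘(ℝ, V) 1 (extChartAt 𝓘(ℝ, V) x0).symm (extChartAt 𝓘(ℝ, V) x0).target :=
    contMDiffOn_extChartAt_symm x0
  have h2 : ContMDiffOn 𝓘(ℝ, V) (𝓡 N) 1 (F ∘ (extChartAt 𝓘(ℝ, V) x0).symm)
      (extChartAt 𝓘(ℝ, V) x0).target := hF.comp_contMDiffOn h1
  exact contMDiffOn_iff_contDiffOn.1 h2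

lemma contDiffAt_loc {F : M → EE N} (hF : ContMDiff 𝓘(ℝ, V) (𝓡 N) 1 F) (x0 x : M)
    (hx : x ∈ (extChartAt 𝓘(ℝ, V) x0).source) :
    ContDiffAt ℝ 1 (loc F x0) (extChartAt 𝓘(ℝ, V) x0 x) :=
  (contDiffOn_loc hF x0).contDiffAt
    ((isOpen_extChartAt_target x0).mem_nhds ((extChartAt 𝓘(ℝ, V) x0).map_source hx))

lemma dF_eq {F : M → EE N} (hF : ContMDiff 𝓘(ℝ, V) (𝓡 N) 1 F) (x0 x : M)
    (hx : x ∈ (extChartAt 𝓘(ℝ, V) x0).source) :
    dF V F x = fderiv ℝ (loc F x0) (extChartAt 𝓘(ℝ, V) x0 x) ∘L chartD x0 x := by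
  have h1 : F =ᶠ[𝓝 x] (loc F x0) ∘ (extChartAt 𝓘(ℝ, V) x0) := by
    filter_upwards [extChartAt_source_mem_nhds' (I := 𝓘(ℝ, V)) hx] with y hy
    simp only [loc, Function.comp_apply]
    rw [(extChartAt 𝓘(ℝ, V) x0).left_inv hy]
  have hx' : x ∈ (chartAt V x0).source := by
    rwa [extChartAt_source] at hx
  have h2 : MDifferentiableAt 𝓘(ℝ, V) 𝓘(ℝ, V) (extChartAt 𝓘(ℝ, V) x0) x :=
    mdifferentiableAt_extChartAt hx'
  have h3 : MDifferentiableAt 𝓘(ℝ, V) (𝓡 N) (loc F x0) (extChartAt 𝓘(ℝ, V) x0 x) :=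
    ((contDiffAt_loc hF x0 x hx).differentiableAt (by norm_num)).mdifferentiableAt
  have h4 := mfderiv_comp (I := 𝓘(ℝ, V)) (I' := 𝓘(ℝ, V)) (I'' := 𝓡 N) x h3 h2
  unfold dF chartD
  rw [h1.mfderiv_eq, h4, mfderiv_eq_fderiv]
  rfl

lemma chartD_equiv (x0 x : M) (hx : x ∈ (extChartAt 𝓘(ℝ, V) x0).source) :
    ∃ C : V ≃L[ℝ] V, (C : V →L[ℝ] V) = chartD x0 x := by
  have h := isInvertible_mfderiv_extChartAt (I := 𝓘(ℝ, V)) hx
  obtain ⟨C, hC⟩ := h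
  exact ⟨C, hC⟩

/-- `F` has derivative `K x` with respect to `e`. -/
noncomputable def KF (V : Type*) [NormedAddCommGroup V] [NormedSpace ℝ V] {N N' : ℕ}
    {M : Type*} [MetricSpace M]
    [ChartedSpace V M] (e : M → EE N) (F : M → EE N') (x : M) : EE N →L[ℝ] EE N' :=
  dF V F x ∘L pinv (dF V e x)

lemma fderiv_loc_inj {e : M → EE N} (he : ContMDiff 𝓘(ℝ, V) (𝓡 N) 1 e)
    (hinj : ∀ x, Injective (dF V e x)) (x0 x : M)
    (hx : x ∈ (extChartAt 𝓘(ℝ, V) x0).source) :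
    Injective (fderiv ℝ (loc e x0) (extChartAt 𝓘(ℝ, V) x0 x)) := by
  obtain ⟨C, hC⟩ := chartD_equiv x0 x hx
  have h1 := dF_eq he x0 x hx
  rw [← hC] at h1
  intro a b hab
  have h2 : dF V e x (C.symm a) = dF V e x (C.symm b) := by
    rw [h1]
    simpa using hab
  exact C.symm.injective (hinj x h2)

lemma KF_eq {e : M → EE N} {F : M → EE N'} (he : ContMDiff 𝓘(ℝ, V) (𝓡 N) 1 e)
    (hF : ContMDiff 𝓘(ℝ, V) (𝓡 N') 1 F)
    (hinj : ∀ x, Injective (dF V e x)) (x0 x : M)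
    (hx : x ∈ (extChartAt 𝓘(ℝ, V) x0).source) :
    KF V e F x = fderiv ℝ (loc F x0) (extChartAt 𝓘(ℝ, V) x0 x) ∘L
      pinv (fderiv ℝ (loc e x0) (extChartAt 𝓘(ℝ, V) x0 x)) := by
  obtain ⟨C, hC⟩ := chartD_equiv x0 x hx
  unfold KF
  rw [dF_eq he x0 x hx, dF_eq hF x0 x hx, ← hC,
    pinv_comp_equiv _ (fderiv_loc_inj he hinj x0 x hx)]
  ext w
  simp

lemma continuous_KF {e : M → EE N} {F : M → EE N'} (he : ContMDiff 𝓘(ℝ, V) (𝓡 N) 1 e)
    (hF : ContMDiff 𝓘(ℝ, V) (𝓡 N') 1 F) (hinj : ∀ x, Injective (dF V e x)) :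
    Continuous (KF V e F) := by
  rw [continuous_iff_continuousAt]
  intro x0
  have h0 : x0 ∈ (extChartAt 𝓘(ℝ, V) x0).source := mem_extChartAt_source x0
  have h1 : KF V e F =ᶠ[𝓝 x0] fun x => fderiv ℝ (loc F x0) (extChartAt 𝓘(ℝ, V) x0 x) ∘L
      pinv (fderiv ℝ (loc e x0) (extChartAt 𝓘(ℝ, V) x0 x)) := by
    filter_upwards [extChartAt_source_mem_nhds (I := 𝓘(ℝ, V)) x0] with x hx
    exact KF_eq he hF hinj x0 x hx
  refine ContinuousAt.congr ?_ h1.symm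
  have h2 : ContinuousAt (extChartAt 𝓘(ℝ, V) x0) x0 := continuousAt_extChartAt x0
  have h3 : ContinuousAt (fun x => fderiv ℝ (loc F x0) (extChartAt 𝓘(ℝ, V) x0 x)) x0 := by
    have : ContinuousAt (fderiv ℝ (loc F x0)) (extChartAt 𝓘(ℝ, V) x0 x0) :=
      (contDiffAt_loc hF x0 x0 h0).continuousAt_fderiv (by norm_num)
    exact ContinuousAt.comp this h2
  have h4 : ContinuousAt (fun x => fderiv ℝ (loc e x0) (extChartAt 𝓘(ℝ, V) x0 x)) x0 := by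
    have : ContinuousAt (fderiv ℝ (loc e x0)) (extChartAt 𝓘(ℝ, V) x0 x0) :=
      (contDiffAt_loc he x0 x0 h0).continuousAt_fderiv (by norm_num)
    exact ContinuousAt.comp this h2
  have h5 : ContinuousAt (fun x => pinv (fderiv ℝ (loc e x0) (extChartAt 𝓘(ℝ, V) x0 x))) x0 :=
    ContinuousAt.comp (f := fun x => fderiv ℝ (loc e x0) (extChartAt 𝓘(ℝ, V) x0 x))
      (continuousAt_pinv _ (fderiv_loc_inj he hinj x0 x0 h0)) h4
  exact h3.clm_comp h5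

lemma KF_apply {e : M → EE N} {F : M → EE N'} (hinj : ∀ x, Injective (dF V e x)) (x : M) (v : V) :
    KF V e F x (dF V e x v) = dF V F x v := by
  unfold KF
  rw [ContinuousLinearMap.comp_apply, pinv_apply _ (hinj x)]

lemma KF_comp_KF {e : M → EE N} {F : M → EE N'} (hinj : ∀ x, Injective (dF V e x)) (x : M) :
    KF V e F x ∘L KF V e e x = KF V e F x := by
  ext1 w
  rw [ContinuousLinearMap.comp_apply]
  conv_lhs => unfold KF
  rw [ContinuousLinearMap.comp_apply, ContinuousLinearMap.comp_apply, pinv_apply _ (hinj x)]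
  rfl

lemma range_KF (e : M → EE N) (hinj : ∀ x, Injective (dF V e x)) (x : M) :
    (KF V e e x).range = (dF V e x).range := by
  ext w
  constructor
  · rintro ⟨v, rfl⟩
    exact ⟨pinv (dF V e x) v, rfl⟩
  · rintro ⟨v, rfl⟩
    exact ⟨dF V e x v, KF_apply hinj x v⟩

end Pool.Agent.Lib.MP610fe3.Gen
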